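import Pool.Agent.Helper57.SI.Stmts

/-!
# Row FJ1: Fourier expansions of the Fejér kernel
-/

set_option autoImplicit false

namespace Pool.Agent.Helper34.SI

open Pool.Agent.Helper57.SI

theorem fj1_zero {K : ℕ} (hK : 1 ≤ K) {k : ℤ} (h : (K : ℤ) ≤ |k|) : fc K k = 0 := by
  unfold fc
  apply max_eq_left
  have hK0 : (0 : ℝ) < K := by exact_mod_cast hK
  have h1 : (K : ℝ) ≤ |(k : ℝ)| := by exact_mod_cast h
  have h2 : 1 ≤ |(k : ℝ)| / K := (one_le_div hK0).2 h1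
  linarith

theorem fj1_val {K : ℕ} (hK : 1 ≤ K) {k : ℤ} (h : |k| ≤ (K : ℤ)) :
    fc K k = 1 - |(k : ℝ)| / K := by
  unfold fc
  apply max_eq_right
  have hK0 : (0 : ℝ) < K := by exact_mod_cast hK
  have h1 : |(k : ℝ)| ≤ K := by exact_mod_cast h
  have h2 : |(k : ℝ)| / K ≤ 1 := (div_le_one hK0).2 h1
  linarith

theorem fj1_bound (K : ℕ) (k : ℤ) : 0 ≤ fc K k ∧ fc K k ≤ 1 := by
  unfold fc
  refine ⟨le_max_left _ _, max_le zero_le_one ?_⟩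
  have h : 0 ≤ |(k : ℝ)| / (K : ℝ) := by positivity
  linarith

theorem fj1_out {K : ℕ} {k : ℤ}
    (h : k ∉ Finset.Icc (-((K + 1 : ℕ) : ℤ)) ((K + 1 : ℕ) : ℤ)) :
    (K : ℤ) ≤ |k| ∧ (K : ℤ) ≤ |k - 1| ∧ (K : ℤ) ≤ |k + 1| := by
  rw [Finset.mem_Icc] at h
  push_cast at h
  refine ⟨?_, ?_, ?_⟩ <;> rw [le_abs] <;> omega

theorem fj1_odd (K : ℕ) (x : ℝ) :
    ∑ k ∈ Finset.Icc (-(K : ℤ)) (K : ℤ), (1 - |(k : ℝ)| / K) * Real.sin ((k : ℝ) * x) = 0 := by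
  have h : ∑ k ∈ Finset.Icc (-(K : ℤ)) (K : ℤ), (1 - |(k : ℝ)| / K) * Real.sin ((k : ℝ) * x) =
      ∑ k ∈ Finset.Icc (-(K : ℤ)) (K : ℤ),
        (1 - |((-k : ℤ) : ℝ)| / K) * Real.sin (((-k : ℤ) : ℝ) * x) := by
    refine Finset.sum_equiv (Equiv.neg ℤ) ?_ ?_
    · intro k
      simp only [Equiv.neg_apply, Finset.mem_Icc]
      omega
    · intro k _
      simp only [Equiv.neg_apply, neg_neg]
  have h2 : ∑ k ∈ Finset.Icc (-(K : ℤ)) (K : ℤ),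
        (1 - |((-k : ℤ) : ℝ)| / K) * Real.sin (((-k : ℤ) : ℝ) * x) =
      -∑ k ∈ Finset.Icc (-(K : ℤ)) (K : ℤ), (1 - |(k : ℝ)| / K) * Real.sin ((k : ℝ) * x) := by
    rw [← Finset.sum_neg_distrib]
    refine Finset.sum_congr rfl fun k _ => ?_
    push_cast
    rw [abs_neg, neg_mul, Real.sin_neg]
    ring
  linarith

theorem fj1_exp (k : ℤ) (x : ℝ) :
    Complex.exp ((((k : ℝ) * x : ℝ) : ℂ) * Complex.I) = Complex.exp ((x : ℂ) * Complex.I) ^ k := by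
  rw [← Complex.exp_int_mul]
  congr 1
  push_cast
  ring

theorem fj1_A {K : ℕ} (hK : 1 ≤ K) (x : ℝ) :
    ((fej K x : ℝ) : ℂ) = ∑ k ∈ Finset.Icc (-((K + 1 : ℕ) : ℤ)) ((K + 1 : ℕ) : ℤ),
      (fc K k : ℂ) * Complex.exp ((((k : ℝ) * x : ℝ) : ℂ) * Complex.I) := by
  have h1 : ∑ k ∈ Finset.Icc (-(K : ℤ)) (K : ℤ),
      (fc K k : ℂ) * Complex.exp ((((k : ℝ) * x : ℝ) : ℂ) * Complex.I) =
      ∑ k ∈ Finset.Icc (-((K + 1 : ℕ) : ℤ)) ((K + 1 : ℕ) : ℤ),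
      (fc K k : ℂ) * Complex.exp ((((k : ℝ) * x : ℝ) : ℂ) * Complex.I) := by
    apply Finset.sum_subset
    · intro k hk
      rw [Finset.mem_Icc] at hk ⊢
      push_cast
      omega
    · intro k _ hk
      rw [Finset.mem_Icc] at hk
      rw [fj1_zero hK (by rw [le_abs]; omega), Complex.ofReal_zero, zero_mul]
  rw [← h1]
  have h2 : ∑ k ∈ Finset.Icc (-(K : ℤ)) (K : ℤ),
      (fc K k : ℂ) * Complex.exp ((((k : ℝ) * x : ℝ) : ℂ) * Complex.I) =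
      ((∑ k ∈ Finset.Icc (-(K : ℤ)) (K : ℤ), (1 - |(k : ℝ)| / K) * Real.cos ((k : ℝ) * x) : ℝ) : ℂ)
        + ((∑ k ∈ Finset.Icc (-(K : ℤ)) (K : ℤ),
          (1 - |(k : ℝ)| / K) * Real.sin ((k : ℝ) * x) : ℝ) : ℂ) * Complex.I := by
    rw [Complex.ofReal_sum, Complex.ofReal_sum, Finset.sum_mul, ← Finset.sum_add_distrib]
    refine Finset.sum_congr rfl fun k hk => ?_
    rw [Finset.mem_Icc] at hk
    rw [fj1_val hK (abs_le.2 hk), Complex.exp_mul_I, ← Complex.ofReal_cos, ← Complex.ofReal_sin,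
      Complex.ofReal_mul (1 - |(k : ℝ)| / K) (Real.cos ((k : ℝ) * x)),
      Complex.ofReal_mul (1 - |(k : ℝ)| / K) (Real.sin ((k : ℝ) * x))]
    ring
  rw [h2, fj1_odd, Complex.ofReal_zero, zero_mul, add_zero]
  rfl

theorem fj1_B {K : ℕ} (hK : 1 ≤ K) (x : ℝ) :
    ((fej K x * (1 - Real.cos x) : ℝ) : ℂ) =
      ∑ k ∈ Finset.Icc (-((K + 1 : ℕ) : ℤ)) ((K + 1 : ℕ) : ℤ),
        (gc K k : ℂ) * Complex.exp ((((k : ℝ) * x : ℝ) : ℂ) * Complex.I) := by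
  rw [Complex.ofReal_mul, fj1_A hK x]
  simp only [fj1_exp]
  obtain ⟨q, hq⟩ : ∃ q : ℂ, q = Complex.exp ((x : ℂ) * Complex.I) := ⟨_, rfl⟩
  rw [← hq]
  have hq0 : q ≠ 0 := by
    rw [hq]
    exact Complex.exp_ne_zero _
  have hcos : ((1 - Real.cos x : ℝ) : ℂ) = 1 - (q + q⁻¹) / 2 := by
    rw [Complex.ofReal_sub, Complex.ofReal_one, Complex.ofReal_cos, Complex.cos, hq,
      ← Complex.exp_neg, neg_mul]
  rw [hcos]
  have hF : ∑ k ∈ Finset.Icc (-((K + 1 : ℕ) : ℤ)) ((K + 1 : ℕ) : ℤ), (fc K k : ℂ) * q ^ k =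
      ∑' k : ℤ, (fc K k : ℂ) * q ^ k := by
    refine (tsum_eq_sum fun k hk => ?_).symm
    rw [fj1_zero hK (fj1_out hk).1, Complex.ofReal_zero, zero_mul]
  have hm : ∑ k ∈ Finset.Icc (-((K + 1 : ℕ) : ℤ)) ((K + 1 : ℕ) : ℤ),
      (fc K (k - 1) : ℂ) * q ^ k = q * ∑' k : ℤ, (fc K k : ℂ) * q ^ k := by
    rw [← (Equiv.subRight (1 : ℤ)).tsum_eq (fun k : ℤ => (fc K k : ℂ) * q ^ k), ← tsum_mul_left,
      tsum_eq_sum (s := Finset.Icc (-((K + 1 : ℕ) : ℤ)) ((K + 1 : ℕ) : ℤ)) ?_]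
    · refine Finset.sum_congr rfl fun k _ => ?_
      simp only [Equiv.subRight_apply]
      rw [zpow_sub_one₀ hq0]
      field_simp
    · intro k hk
      simp only [Equiv.subRight_apply]
      rw [fj1_zero hK (fj1_out hk).2.1, Complex.ofReal_zero, zero_mul, mul_zero]
  have hp : ∑ k ∈ Finset.Icc (-((K + 1 : ℕ) : ℤ)) ((K + 1 : ℕ) : ℤ),
      (fc K (k + 1) : ℂ) * q ^ k = q⁻¹ * ∑' k : ℤ, (fc K k : ℂ) * q ^ k := by
    rw [← (Equiv.addRight (1 : ℤ)).tsum_eq (fun k : ℤ => (fc K k : ℂ) * q ^ k), ← tsum_mul_left,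
      tsum_eq_sum (s := Finset.Icc (-((K + 1 : ℕ) : ℤ)) ((K + 1 : ℕ) : ℤ)) ?_]
    · refine Finset.sum_congr rfl fun k _ => ?_
      simp only [Equiv.coe_addRight]
      rw [zpow_add_one₀ hq0]
      field_simp
    · intro k hk
      simp only [Equiv.coe_addRight]
      rw [fj1_zero hK (fj1_out hk).2.2, Complex.ofReal_zero, zero_mul, mul_zero]
  have hG : ∑ k ∈ Finset.Icc (-((K + 1 : ℕ) : ℤ)) ((K + 1 : ℕ) : ℤ), (gc K k : ℂ) * q ^ k =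
      (∑ k ∈ Finset.Icc (-((K + 1 : ℕ) : ℤ)) ((K + 1 : ℕ) : ℤ), (fc K k : ℂ) * q ^ k) -
        ((∑ k ∈ Finset.Icc (-((K + 1 : ℕ) : ℤ)) ((K + 1 : ℕ) : ℤ), (fc K (k - 1) : ℂ) * q ^ k) +
          ∑ k ∈ Finset.Icc (-((K + 1 : ℕ) : ℤ)) ((K + 1 : ℕ) : ℤ),
            (fc K (k + 1) : ℂ) * q ^ k) / 2 := by
    rw [← Finset.sum_add_distrib, Finset.sum_div, ← Finset.sum_sub_distrib]
    refine Finset.sum_congr rfl fun k _ => ?_
    unfold gc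
    push_cast
    ring
  rw [hG, hm, hp, hF]
  ring

theorem st_FJ1 : ST_FJ1 := by
  intro K hK
  have hK0 : (0 : ℝ) < K := by exact_mod_cast hK
  have hf0 : fc K 0 = 1 := by
    rw [fj1_val hK (by simp)]
    simp
  have hf1 : fc K 1 = 1 - 1 / K := by
    rw [fj1_val hK (by simpa using hK)]
    simp
  have hf2 : fc K (-1) = 1 - 1 / K := by
    rw [fj1_val hK (by simpa using hK)]
    simp
  refine ⟨fj1_A hK, fj1_B hK, hf0, ?_, ?_⟩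
  · unfold gc
    rw [zero_sub, zero_add, hf0, hf1, hf2]
    ring
  · intro k
    have h1 := fj1_bound K k
    have h2 := fj1_bound K (k - 1)
    have h3 := fj1_bound K (k + 1)
    refine ⟨?_, ?_⟩
    · rw [abs_le]
      constructor <;> linarith [h1.1, h1.2]
    · unfold gc
      rw [abs_le]
      constructor <;> linarith [h1.1, h1.2, h2.1, h2.2, h3.1, h3.2]

end Pool.Agent.Helper34.SI
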